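import Pool.Agent.Y819.ZF.StmM
import Pool.Agent.Y972.ZF.Idb

/-!
# Project ZF, third part: the alternating sum of the polynomials of a multigraph
-/

set_option autoImplicit false
set_option linter.all false

namespace Pool.Agent.Y445.ZM

open Finset Pool.Agent.H604R2.LEC Pool.Agent.Y819.ZF Pool.Agent.Y972.ZF

theorem PM_congr {n : ℕ} {K : Type} [CommRing K] {ν ν' : Fin n → Fin n → ℕ}
    (h : ∀ a b, ν a b = ν' a b) (s : Fin n → K) : PM ν s = PM ν' s := by
  have : ν = ν' := by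
    funext a b
    exact h a b
  rw [this]

theorem PM_zero {n : ℕ} {K : Type} [CommRing K] {ν : Fin n → Fin n → ℕ}
    (h : ∀ a b, ν a b = 0) (s : Fin n → K) : PM ν s = 1 := by
  unfold PM
  apply Finset.prod_eq_one
  intro e _
  rw [h, pow_zero]

theorem PM_PR {n : ℕ} {K : Type} [CommRing K] {ν : Fin n → Fin n → ℕ} {T : Fin n → Fin n → Prop}
    (h : ∀ a b, (T a b → ν a b = 1) ∧ (¬ T a b → ν a b = 0)) (s : Fin n → K) :
    PM ν s = PR T s := by
  classical
  unfold PM PR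
  rw [Finset.prod_filter]
  refine prod_congr rfl fun e _ => ?_
  split_ifs with h1
  · rw [(h _ _).1 h1, pow_one]
  · rw [(h _ _).2 h1, pow_zero]

theorem pow_sign {ι : Type} (S : Finset ι) (p : ι → Prop) [DecidablePred p] (k : ι → ℕ) :
    (∏ w ∈ S, (if p w then (-1 : ℤ) ^ k w else 1)) = 1 ∨
      (∏ w ∈ S, (if p w then (-1 : ℤ) ^ k w else 1)) = -1 := by
  refine Finset.prod_induction (fun w => if p w then (-1 : ℤ) ^ k w else 1)
    (fun d => d = 1 ∨ d = -1) ?_ (Or.inl rfl) ?_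
  · rintro a b (rfl | rfl) (rfl | rfl) <;> simp
  · intro w _
    by_cases hw : p w
    · rw [if_pos hw]
      exact neg_one_pow_eq_or ℤ (k w)
    · rw [if_neg hw]
      exact Or.inl rfl

theorem pow_sign_cast {ι : Type} (S : Finset ι) (p : ι → Prop) [DecidablePred p] (k : ι → ℕ)
    (K : Type) [CommRing K] :
    ((∏ w ∈ S, (if p w then (-1 : ℤ) ^ k w else 1) : ℤ) : K) =
      ∏ w ∈ S, (if p w then (-1 : K) ^ k w else 1) := by
  rw [Int.cast_prod]
  refine prod_congr rfl fun w _ => ?_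
  split_ifs <;> simp

/-- splitting off the edges at a vertex -/
theorem splitM {n : ℕ} (ν : Fin n → Fin n → ℕ) (hν : ∀ a b, ν a b = ν b a) (x : Fin n)
    (ν' : Fin n → Fin n → ℕ) (h0 : ∀ a b, (a = x ∨ b = x) → ν' a b = 0)
    (h1 : ∀ a b, a ≠ x → b ≠ x → ν' a b = ν a b) :
    ∃ δ : ℤ, (δ = 1 ∨ δ = -1) ∧ ∀ (K : Type) [CommRing K] (s : Fin n → K),
      PM ν s = (δ : K) * (∏ w ∈ univ.erase x, (s x - s w) ^ ν x w) * PM ν' s := by
  classical
  refine ⟨∏ w ∈ univ.erase x, (if w < x then (-1 : ℤ) ^ ν x w else 1), pow_sign _ _ _, ?_⟩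
  intro K _ s
  rw [pow_sign_cast, ← prod_mul_distrib]
  have e1 : PM ν s = (∏ e ∈ (univ : Finset (Ed n)).filter (fun e => e.1.1 = x ∨ e.1.2 = x),
      (s e.1.1 - s e.1.2) ^ ν e.1.1 e.1.2) *
      ∏ e ∈ (univ : Finset (Ed n)).filter (fun e => ¬ (e.1.1 = x ∨ e.1.2 = x)),
      (s e.1.1 - s e.1.2) ^ ν e.1.1 e.1.2 := by
    unfold PM
    rw [Finset.prod_filter_mul_prod_filter_not]
  have e2 : ∏ e ∈ (univ : Finset (Ed n)).filter (fun e => ¬ (e.1.1 = x ∨ e.1.2 = x)),
      (s e.1.1 - s e.1.2) ^ ν e.1.1 e.1.2 = PM ν' s := by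
    unfold PM
    rw [Finset.prod_filter]
    refine prod_congr rfl fun e _ => ?_
    by_cases h : e.1.1 = x ∨ e.1.2 = x
    · rw [if_neg (not_not.2 h), h0 _ _ h, pow_zero]
    · rw [if_pos h]
      rw [not_or] at h
      rw [h1 _ _ h.1 h.2]
  rw [e1, e2]
  congr 1
  refine Finset.prod_bij (fun e _ => if e.1.1 = x then e.1.2 else e.1.1) ?_ ?_ ?_ ?_
  · intro e he
    simp only [mem_filter, mem_univ, true_and] at he
    rw [mem_erase]
    refine ⟨?_, mem_univ _⟩
    have hlt := e.2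
    split_ifs with h
    · rw [← h]; exact hlt.ne'
    · exact h
  · intro e he e' he' hee
    simp only [mem_filter, mem_univ, true_and] at he he'
    have hlt := e.2
    have hlt' := e'.2
    apply Subtype.ext
    split_ifs at hee with h h' h'
    · exact Prod.ext (h.trans h'.symm) hee
    · have h2 : e'.1.2 = x := he'.resolve_left h'
      rw [h, hee] at hlt
      rw [h2] at hlt'
      exact absurd hlt (lt_asymm hlt')
    · have h2 : e.1.2 = x := he.resolve_left h
      rw [h', ← hee] at hlt'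
      rw [h2] at hlt
      exact absurd hlt (lt_asymm hlt')
    · have h2 : e.1.2 = x := he.resolve_left h
      have h3 : e'.1.2 = x := he'.resolve_left h'
      exact Prod.ext hee (h2.trans h3.symm)
  · intro w hw
    rw [mem_erase] at hw
    rcases lt_or_gt_of_ne hw.1 with h | h
    · refine ⟨⟨(w, x), h⟩, ?_, ?_⟩
      · simp only [mem_filter, mem_univ, true_and]
        exact Or.inr trivial
      · simp only
        rw [if_neg hw.1]
    · refine ⟨⟨(x, w), h⟩, ?_, ?_⟩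
      · simp only [mem_filter, mem_univ, true_and]
        exact Or.inl trivial
      · simp only [if_true]
  · intro e he
    simp only [mem_filter, mem_univ, true_and] at he
    have hlt := e.2
    split_ifs with h h2 h2
    · rw [h] at hlt
      exact absurd hlt (lt_asymm h2)
    · rw [h, one_mul]
    · have h3 : e.1.2 = x := he.resolve_left h
      rw [h3, hν e.1.1 x, ← mul_pow]
      congr 1
      ring
    · have h3 : e.1.2 = x := he.resolve_left h
      rw [h3] at hlt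
      exact absurd hlt h2

theorem em_inj {n f : ℕ} (h : Fin f → Fin n) (hinj : Function.Injective h) :
    Function.Injective (em h hinj) := by
  intro e e' hee
  have h3 : min (h e.1.1) (h e.1.2) = min (h e'.1.1) (h e'.1.2) :=
    congrArg (fun z : Ed n => z.1.1) hee
  have h4 : max (h e.1.1) (h e.1.2) = max (h e'.1.1) (h e'.1.2) :=
    congrArg (fun z : Ed n => z.1.2) hee
  rcases min_max_cases h3 h4 with ⟨h5, h6⟩ | ⟨h5, h6⟩
  · exact Subtype.ext (Prod.ext (hinj h5) (hinj h6))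
  · have h7 := e.2
    have h8 := e'.2
    have h9 := hinj h5
    have h10 := hinj h6
    rw [h9, h10] at h7
    exact absurd h7 (lt_asymm h8)

theorem edgeM {n f : ℕ} (h : Fin f → Fin n) (hinj : Function.Injective h)
    (ν : Fin n → Fin n → ℕ) (hν : ∀ a b, ν a b = ν b a)
    (hr : ∀ a b, ν a b ≠ 0 → (∃ c, h c = a) ∧ ∃ c, h c = b) :
    ∃ ε : ℤ, (ε = 1 ∨ ε = -1) ∧ ∀ (K : Type) [CommRing K] (s : Fin n → K),
      PM ν s = (ε : K) * ∏ e : Ed f, (s (h e.1.1) - s (h e.1.2)) ^ ν (h e.1.1) (h e.1.2) := by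
  classical
  refine ⟨∏ e : Ed f, (if h e.1.2 < h e.1.1 then (-1 : ℤ) ^ ν (h e.1.1) (h e.1.2) else 1),
    pow_sign _ _ _, ?_⟩
  intro K _ s
  rw [pow_sign_cast, ← prod_mul_distrib]
  unfold PM
  symm
  refine Fintype.prod_of_injective (em h hinj) (em_inj h hinj) _ _ ?_ ?_
  · intro e' he'
    have h1 : ν e'.1.1 e'.1.2 = 0 := by
      by_contra h2
      obtain ⟨⟨c, hc⟩, ⟨c', hc'⟩⟩ := hr _ _ h2
      apply he'
      have hlt := e'.2
      have hne : c ≠ c' := by
        rintro rfl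
        rw [← hc, ← hc'] at hlt
        exact lt_irrefl _ hlt
      rcases lt_or_gt_of_ne hne with h' | h'
      · refine ⟨⟨(c, c'), h'⟩, ?_⟩
        apply Subtype.ext
        show (min (h c) (h c'), max (h c) (h c')) = e'.1
        rw [hc, hc', min_eq_left hlt.le, max_eq_right hlt.le]
      · refine ⟨⟨(c', c), h'⟩, ?_⟩
        apply Subtype.ext
        show (min (h c') (h c), max (h c') (h c)) = e'.1
        rw [hc, hc', min_eq_right hlt.le, max_eq_left hlt.le]
    rw [h1, pow_zero]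
  · intro e
    show (if h e.1.2 < h e.1.1 then (-1 : K) ^ ν (h e.1.1) (h e.1.2) else 1) *
      (s (h e.1.1) - s (h e.1.2)) ^ ν (h e.1.1) (h e.1.2) =
      (s (min (h e.1.1) (h e.1.2)) - s (max (h e.1.1) (h e.1.2))) ^
        ν (min (h e.1.1) (h e.1.2)) (max (h e.1.1) (h e.1.2))
    split_ifs with h'
    · rw [min_eq_right h'.le, max_eq_left h'.le, hν (h e.1.2) (h e.1.1), ← mul_pow]
      congr 1
      ring
    · rw [min_eq_left (not_lt.1 h'), max_eq_right (not_lt.1 h'), one_mul]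

theorem stepAM {n f : ℕ} (μ : Fin n → Fin n → ℕ) (hμ : ∀ a b, μ a b = μ b a)
    (h : Fin f → Fin n) (c : Fin f) :
    ∃ δ : ℤ, (δ = 1 ∨ δ = -1) ∧ ∀ (K : Type) [CommRing K] (s : Fin n → K),
      ∏ c' ∈ univ.erase c, (s (h c) - s (h c')) ^ μ (h c) (h c') =
        (δ : K) * ∏ e : Ed f, (s (h e.1.1) - s (h e.1.2)) ^
          (if e.1.1 = c ∨ e.1.2 = c then μ (h e.1.1) (h e.1.2) else 0) := by
  classical
  obtain ⟨δ, hδ, h2⟩ := splitM (n := f)
    (fun a b => if a = c ∨ b = c then μ (h a) (h b) else 0) (by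
      intro a b
      simp only [hμ (h a) (h b), or_comm (a := a = c)]) c (fun _ _ => 0) (fun _ _ _ => rfl)
    (by
      intro a b ha hb
      simp only [ha, hb, or_self, if_false])
  refine ⟨δ, hδ, fun K _ s => ?_⟩
  have h3 := h2 K (fun a => s (h a))
  rw [PM_zero (ν := fun _ _ => 0) (fun _ _ => rfl), mul_one] at h3
  have h4 := sq_one hδ K
  have h5 : ∏ w ∈ univ.erase c, (s (h c) - s (h w)) ^ (if c = c ∨ w = c then μ (h c) (h w) else 0) =
      ∏ c' ∈ univ.erase c, (s (h c) - s (h c')) ^ μ (h c) (h c') := by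
    refine prod_congr rfl fun w _ => ?_
    rw [if_pos (Or.inl rfl)]
  have h6 : PM (fun a b => if a = c ∨ b = c then μ (h a) (h b) else 0) (fun a => s (h a)) =
      (δ : K) * ∏ c' ∈ univ.erase c, (s (h c) - s (h c')) ^ μ (h c) (h c') := by
    rw [← h5]; exact h3
  calc ∏ c' ∈ univ.erase c, (s (h c) - s (h c')) ^ μ (h c) (h c')
      = ((δ : K) * (δ : K)) * ∏ c' ∈ univ.erase c, (s (h c) - s (h c')) ^ μ (h c) (h c') := by
        rw [h4, one_mul]
    _ = (δ : K) * ((δ : K) * ∏ c' ∈ univ.erase c, (s (h c) - s (h c')) ^ μ (h c) (h c')) := by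
        ring
    _ = _ := by rw [← h6]; rfl

open Classical in
/-- the present multiplicities -/
noncomputable def nuM {n f : ℕ} (μ : Fin n → Fin n → ℕ) (Z : Finset (Fin n)) (h : Fin f → Fin n)
    (a b : Fin n) : ℕ := if Cur Z h a ∧ Cur Z h b then μ a b else 0

theorem nuM_pos {n f : ℕ} {μ : Fin n → Fin n → ℕ} {Z : Finset (Fin n)} {h : Fin f → Fin n}
    {a b : Fin n} (hab : Cur Z h a ∧ Cur Z h b) : nuM μ Z h a b = μ a b := if_pos hab

theorem nuM_neg {n f : ℕ} {μ : Fin n → Fin n → ℕ} {Z : Finset (Fin n)} {h : Fin f → Fin n}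
    {a b : Fin n} (hab : ¬ (Cur Z h a ∧ Cur Z h b)) : nuM μ Z h a b = 0 := if_neg hab

theorem nuM_symm {n f : ℕ} {μ : Fin n → Fin n → ℕ} (hμ : ∀ a b, μ a b = μ b a)
    (Z : Finset (Fin n)) (h : Fin f → Fin n) (a b : Fin n) :
    nuM μ Z h a b = nuM μ Z h b a := by
  by_cases hab : Cur Z h a ∧ Cur Z h b
  · rw [nuM_pos hab, nuM_pos hab.symm, hμ]
  · rw [nuM_neg hab, nuM_neg (fun hh => hab hh.symm)]

/-- the statement for given data, with arbitrary index sets -/
def ConM {n f : ℕ} (μ : Fin n → Fin n → ℕ) (Z : Finset (Fin n)) (h : Fin f → Fin n)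
    (m : Ed f → ℕ) : Prop :=
  ∀ (P : Finset (Equiv.Perm (Fin n))), (∀ σ, σ ∈ P ↔ ∀ v, v ∉ Z → σ v = v) →
  ∃ ε : ℤ, (ε = 1 ∨ ε = -1) ∧ ∀ (K : Type) [Field K] (s : Fin n → K), Function.Injective s →
    ∑ σ ∈ P, (((Equiv.Perm.sign σ : ℤˣ) : ℤ) : K) * PM (nuM μ Z h) (fun v => s (σ v)) =
    (ε : K) * PR (fun a b => a ∈ Z ∧ b ∈ Z) s * ∏ e : Ed f, (s (h e.1.1) - s (h e.1.2)) ^ m e

theorem con_doneM {n f : ℕ} (μ : Fin n → Fin n → ℕ) (hμ : ∀ a b, μ a b = μ b a)
    (h : Fin f → Fin n) (hinj : Function.Injective h) :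
    ConM μ ∅ h (fun e => μ (h e.1.1) (h e.1.2)) := by
  classical
  intro P hP
  obtain ⟨ε, hε, h3⟩ := edgeM h hinj (nuM μ ∅ h) (nuM_symm hμ ∅ h) (by
    intro a b hab
    have h0 : Cur ∅ h a ∧ Cur ∅ h b := by
      by_contra hh
      exact hab (nuM_neg hh)
    obtain ⟨h1 | h1, h2 | h2⟩ := h0
    · exact absurd h1 (notMem_empty _)
    · exact absurd h1 (notMem_empty _)
    · exact absurd h2 (notMem_empty _)
    · exact ⟨h1, h2⟩)
  refine ⟨ε, hε, fun K _ s _ => ?_⟩
  have hP1 : P = {1} := by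
    ext σ
    rw [hP, mem_singleton]
    constructor
    · intro h1
      ext v
      rw [h1 v (notMem_empty v)]
      rfl
    · rintro rfl v _
      rfl
  rw [hP1, sum_singleton, PR_empty (T := fun a b => a ∈ (∅ : Finset (Fin n)) ∧ b ∈ (∅ : Finset (Fin n)))
    (fun a b hh => notMem_empty _ hh.1), mul_one]
  simp only [Equiv.Perm.sign_one, Units.val_one, Int.cast_one, one_mul, Equiv.Perm.coe_one, id_eq]
  have h4 := h3 K s
  rw [show (fun v => s v) = s from rfl, h4]
  congr 1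
  refine prod_congr rfl fun e _ => ?_
  rw [nuM_pos ⟨Or.inr ⟨_, rfl⟩, Or.inr ⟨_, rfl⟩⟩]

/-- the factor of the end of the moving chain -/
theorem fac {n f : ℕ} (μ : Fin n → Fin n → ℕ) (Z : Finset (Fin n)) (h : Fin f → Fin n)
    (hinj : Function.Injective h) (hZ : ∀ c, h c ∉ Z) (c : Fin f) (u : Fin n) (hu : u ∈ Z)
    (h0 : μ (h c) u = 0) (h1 : ∀ z ∈ Z, z ≠ u → μ (h c) z = 1) (K : Type) [CommRing K]
    (s : Fin n → K) :
    ∏ w ∈ univ.erase (h c), (s (h c) - s w) ^ nuM μ Z h (h c) w =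
      (∏ w ∈ Z.erase u, (s (h c) - s w)) *
        ∏ c' ∈ univ.erase c, (s (h c) - s (h c')) ^ μ (h c) (h c') := by
  classical
  have hc : Cur Z h (h c) := Or.inr ⟨c, rfl⟩
  have hdis : Disjoint Z ((univ.erase c).image h) := by
    rw [Finset.disjoint_left]
    intro w hw hw'
    rw [mem_image] at hw'
    obtain ⟨c', -, rfl⟩ := hw'
    exact hZ c' hw
  have hsub : Z ∪ (univ.erase c).image h ⊆ univ.erase (h c) := by
    intro w hw
    rw [mem_union] at hw
    rw [mem_erase]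
    refine ⟨?_, mem_univ _⟩
    rcases hw with hw | hw
    · rintro rfl
      exact hZ c hw
    · rw [mem_image] at hw
      obtain ⟨c', hc', rfl⟩ := hw
      exact fun hh => (mem_erase.1 hc').1 (hinj hh)
  rw [← Finset.prod_subset hsub (by
    intro w hw hw'
    rw [mem_union, not_or] at hw'
    rw [nuM_neg, pow_zero]
    rintro ⟨-, hw2 | ⟨c', hc'⟩⟩
    · exact hw'.1 hw2
    · apply hw'.2
      rw [mem_image]
      refine ⟨c', ?_, hc'⟩
      rw [mem_erase]
      refine ⟨?_, mem_univ _⟩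
      rintro rfl
      exact (mem_erase.1 hw).1 hc'.symm), Finset.prod_union hdis,
    Finset.prod_image (fun a _ b _ hab => hinj hab)]
  congr 1
  · rw [← Finset.mul_prod_erase Z _ hu, nuM_pos ⟨hc, Or.inl hu⟩, h0, pow_zero, one_mul]
    refine prod_congr rfl fun w hw => ?_
    rw [nuM_pos ⟨hc, Or.inl (mem_of_mem_erase hw)⟩,
      h1 w (mem_of_mem_erase hw) (mem_erase.1 hw).1, pow_one]
  · refine prod_congr rfl fun c' _ => ?_
    rw [nuM_pos ⟨hc, Or.inr ⟨c', rfl⟩⟩]

theorem con_stepM (h2 : S_VSWAP) (h3 : S_LAG) {n f : ℕ} (μ : Fin n → Fin n → ℕ)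
    (hμ : ∀ a b, μ a b = μ b a)
    (Z : Finset (Fin n)) (h : Fin f → Fin n) (hinj : Function.Injective h) (hZ : ∀ c, h c ∉ Z)
    (c : Fin f) (u : Fin n) (m : Ed f → ℕ) (hu : u ∈ Z) (h0 : μ (h c) u = 0)
    (h1 : ∀ z ∈ Z, z ≠ u → μ (h c) z = 1)
    (hdeg : ∀ E : Finset (Ed f), (∀ e, e ∈ E ↔ (e.1.1 = c ∨ e.1.2 = c)) → ∑ e ∈ E, m e < Z.card)
    (ih : ConM μ (Z.erase u) (Function.update h c u) m) :
    ConM μ Z h (fun e => m e + if e.1.1 = c ∨ e.1.2 = c then μ (h e.1.1) (h e.1.2) else 0) := by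
  classical
  intro P hP
  let P' : Finset (Equiv.Perm (Fin n)) := univ.filter fun σ => ∀ v, v ∉ Z.erase u → σ v = v
  have hP' : ∀ σ, σ ∈ P' ↔ ∀ v, v ∉ Z.erase u → σ v = v := by
    intro σ
    simp only [P', mem_filter, mem_univ, true_and]
  obtain ⟨ε, hε, ih⟩ := ih P' hP'
  obtain ⟨δ3, hδ3, hA⟩ := stepAM μ hμ h c
  obtain ⟨δ, hδ, hsp⟩ := splitM (nuM μ Z h) (nuM_symm hμ Z h) (h c)
    (nuM μ (Z.erase u) (Function.update h c u)) (by
      intro a b hab
      apply nuM_neg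
      rw [cur_step hinj hZ c hu, cur_step hinj hZ c hu]
      rintro ⟨⟨-, h4⟩, ⟨-, h5⟩⟩
      exact hab.elim h4 h5) (by
      intro a b ha hb
      by_cases hab : Cur Z h a ∧ Cur Z h b
      · rw [nuM_pos hab, nuM_pos]
        rw [cur_step hinj hZ c hu, cur_step hinj hZ c hu]
        exact ⟨⟨hab.1, ha⟩, ⟨hab.2, hb⟩⟩
      · rw [nuM_neg hab, nuM_neg]
        rw [cur_step hinj hZ c hu, cur_step hinj hZ c hu]
        rintro ⟨⟨h4, -⟩, ⟨h5, -⟩⟩
        exact hab ⟨h4, h5⟩)
  obtain ⟨δ2, hδ2, hsp2⟩ := split' split (fun a b : Fin n => a ∈ Z ∧ b ∈ Z)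
    (fun a b hab => hab.symm) u
    (Z.erase u) (by
    intro w
    rw [mem_erase]
    tauto) (fun a b : Fin n => a ∈ Z.erase u ∧ b ∈ Z.erase u) (by
    intro a b
    rw [mem_erase, mem_erase]
    tauto)
  refine ⟨δ * ε * δ2 * δ3, mul_sign (mul_sign (mul_sign hδ hε) hδ2) hδ3, fun K _ s hs => ?_⟩
  rw [sum_perm hu P P' hP hP']
  -- abbreviations
  let A : K := ∏ c' ∈ univ.erase c, (s (h c) - s (h c')) ^ μ (h c) (h c')
  let g : Polynomial K := gp h c m s
  let Q : Fin n → K := fun i => ∏ z ∈ Z.erase i, (s (h c) - s z)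
  let D : Fin n → K := fun i => ∏ z ∈ Z.erase i, (s i - s z)
  have hD : ∀ i, D i ≠ 0 := by
    intro i
    simp only [D]
    rw [Finset.prod_ne_zero_iff]
    intro z hz
    rw [sub_ne_zero]
    exact fun hh => (mem_erase.1 hz).1 (hs hh).symm
  have hinner : ∀ i ∈ Z, ∑ σ ∈ P', (((Equiv.Perm.sign (Equiv.swap u i * σ) : ℤˣ) : ℤ) : K) *
      PM (nuM μ Z h) (fun v => s ((Equiv.swap u i * σ) v)) =
      ((δ : K) * (ε : K) * (δ2 : K) * A * PR (fun a b => a ∈ Z ∧ b ∈ Z) s) *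
        (Q i / D i * g.eval (s i)) := by
    intro i hi
    have hsw : ∀ v, v ∉ Z → Equiv.swap u i v = v := fun v hv =>
      Equiv.swap_apply_of_ne_of_ne (fun hh => hv (hh ▸ hu)) (fun hh => hv (hh ▸ hi))
    let si : Fin n → K := fun v => s (Equiv.swap u i v)
    have hsi : Function.Injective si := fun a b hab => (Equiv.swap u i).injective (hs hab)
    have h4 : ∀ σ ∈ P', (((Equiv.Perm.sign (Equiv.swap u i * σ) : ℤˣ) : ℤ) : K) *
        PM (nuM μ Z h) (fun v => s ((Equiv.swap u i * σ) v)) =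
        ((((Equiv.Perm.sign (Equiv.swap u i) : ℤˣ) : ℤ) : K) * (δ : K) * Q i * A) *
        ((((Equiv.Perm.sign σ : ℤˣ) : ℤ) : K) *
          PM (nuM μ (Z.erase u) (Function.update h c u)) (fun v => si (σ v))) := by
      intro σ hσ
      rw [hP'] at hσ
      have h5 : ∀ v, v ∉ Z → (Equiv.swap u i * σ) v = v := by
        intro v hv
        show Equiv.swap u i (σ v) = v
        rw [hσ v (fun hh => hv (mem_of_mem_erase hh)), hsw v hv]
      have h6 : (Equiv.swap u i * σ) u = i := by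
        show Equiv.swap u i (σ u) = i
        rw [hσ u (notMem_erase u Z), Equiv.swap_apply_left]
      rw [hsp K (fun v => s ((Equiv.swap u i * σ) v)),
        fac μ Z h hinj hZ c u hu h0 h1 K (fun v => s ((Equiv.swap u i * σ) v))]
      have h7 : ∏ w ∈ Z.erase u, (s ((Equiv.swap u i * σ) (h c)) - s ((Equiv.swap u i * σ) w)) =
          Q i := by
        rw [h5 (h c) (hZ c), prod_perm h5 u (fun w => s (h c) - s w), h6]
      have h8 : ∏ c' ∈ univ.erase c, (s ((Equiv.swap u i * σ) (h c)) -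
          s ((Equiv.swap u i * σ) (h c'))) ^ μ (h c) (h c') = A := by
        refine prod_congr rfl fun c' _ => ?_
        rw [h5 (h c) (hZ c), h5 (h c') (hZ c')]
      rw [h7, h8, Equiv.Perm.sign_mul, Units.val_mul, Int.cast_mul]
      show _ * _ * ((δ : K) * (Q i * A) * PM (nuM μ (Z.erase u) (Function.update h c u))
        (fun v => s (Equiv.swap u i (σ v)))) = _
      ring
    rw [Finset.sum_congr rfl h4, ← Finset.mul_sum, ih K si hsi]
    have h9 : ∏ e : Ed f, (si (Function.update h c u e.1.1) - si (Function.update h c u e.1.2)) ^ m e =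
        g.eval (s i) := by
      symm
      refine gp_eval h c m s (s i) (fun c' => si (Function.update h c u c')) ?_ ?_
      · show s (Equiv.swap u i (Function.update h c u c)) = s i
        rw [Function.update_self, Equiv.swap_apply_left]
      · intro c' hc'
        show s (Equiv.swap u i (Function.update h c u c')) = s (h c')
        rw [Function.update_of_ne hc', hsw _ (hZ c')]
    rw [h9]
    have h10 : PR (fun a b => a ∈ Z ∧ b ∈ Z) si =
        (((Equiv.Perm.sign (Equiv.swap u i) : ℤˣ) : ℤ) : K) * PR (fun a b => a ∈ Z ∧ b ∈ Z) s :=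
      h2 n Z u i hu hi K s
    have h11 := hsp2 K si
    have h12 : ∏ w ∈ Z.erase u, (si u - si w) = D i := by
      show ∏ w ∈ Z.erase u, (s (Equiv.swap u i u) - s (Equiv.swap u i w)) = D i
      rw [prod_perm hsw u (fun w => s (Equiv.swap u i u) - s w), Equiv.swap_apply_left]
    rw [h12, h10] at h11
    have h13 := sign_one K (Equiv.swap u i)
    have h14 := sq_one hδ2 K
    have h15 : (((Equiv.Perm.sign (Equiv.swap u i) : ℤˣ) : ℤ) : K) *
        PR (fun a b => a ∈ Z.erase u ∧ b ∈ Z.erase u) si =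
        (δ2 : K) * PR (fun a b => a ∈ Z ∧ b ∈ Z) s / D i := by
      rw [eq_div_iff (hD i)]
      calc (((Equiv.Perm.sign (Equiv.swap u i) : ℤˣ) : ℤ) : K) *
          PR (fun a b => a ∈ Z.erase u ∧ b ∈ Z.erase u) si * D i =
          (((Equiv.Perm.sign (Equiv.swap u i) : ℤˣ) : ℤ) : K) * ((δ2 : K) * (δ2 : K)) *
          PR (fun a b => a ∈ Z.erase u ∧ b ∈ Z.erase u) si * D i := by rw [h14, mul_one]
        _ = (((Equiv.Perm.sign (Equiv.swap u i) : ℤˣ) : ℤ) : K) * (δ2 : K) *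
          ((δ2 : K) * D i * PR (fun a b => a ∈ Z.erase u ∧ b ∈ Z.erase u) si) := by ring
        _ = (((Equiv.Perm.sign (Equiv.swap u i) : ℤˣ) : ℤ) : K) * (δ2 : K) *
          ((((Equiv.Perm.sign (Equiv.swap u i) : ℤˣ) : ℤ) : K) *
            PR (fun a b => a ∈ Z ∧ b ∈ Z) s) := by rw [← h11]
        _ = ((((Equiv.Perm.sign (Equiv.swap u i) : ℤˣ) : ℤ) : K) *
          (((Equiv.Perm.sign (Equiv.swap u i) : ℤˣ) : ℤ) : K)) * ((δ2 : K) *
            PR (fun a b => a ∈ Z ∧ b ∈ Z) s) := by ring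
        _ = (δ2 : K) * PR (fun a b => a ∈ Z ∧ b ∈ Z) s := by rw [h13, one_mul]
    calc (((Equiv.Perm.sign (Equiv.swap u i) : ℤˣ) : ℤ) : K) * (δ : K) * Q i * A *
        ((ε : K) * PR (fun a b => a ∈ Z.erase u ∧ b ∈ Z.erase u) si * g.eval (s i)) =
        (δ : K) * Q i * A * (ε : K) * ((((Equiv.Perm.sign (Equiv.swap u i) : ℤˣ) : ℤ) : K) *
          PR (fun a b => a ∈ Z.erase u ∧ b ∈ Z.erase u) si) * g.eval (s i) := by ring
      _ = (δ : K) * Q i * A * (ε : K) * ((δ2 : K) * PR (fun a b => a ∈ Z ∧ b ∈ Z) s / D i) *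
          g.eval (s i) := by rw [h15]
      _ = _ := by ring
  rw [Finset.sum_congr rfl hinner, ← Finset.mul_sum]
  have h16 : g.degree < (Z.card : WithBot ℕ) := by
    have h17 := gp_deg h c m s (univ.filter fun e : Ed f => e.1.1 = c ∨ e.1.2 = c)
      (by intro e; simp only [mem_filter, mem_univ, true_and])
    have h18 := hdeg (univ.filter fun e : Ed f => e.1.1 = c ∨ e.1.2 = c)
      (by intro e; simp only [mem_filter, mem_univ, true_and])
    refine lt_of_le_of_lt Polynomial.degree_le_natDegree ?_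
    exact_mod_cast lt_of_le_of_lt h17 h18
  have h19 := h3 n Z K s hs g h16 (s (h c))
  have h20 : g.eval (s (h c)) = ∏ e : Ed f, (s (h e.1.1) - s (h e.1.2)) ^ m e :=
    gp_eval h c m s (s (h c)) (fun c' => s (h c')) rfl (fun _ _ => rfl)
  have h21 : A = (δ3 : K) * ∏ e : Ed f, (s (h e.1.1) - s (h e.1.2)) ^
      (if e.1.1 = c ∨ e.1.2 = c then μ (h e.1.1) (h e.1.2) else 0) := hA K s
  have h22 : ∏ e : Ed f, (s (h e.1.1) - s (h e.1.2)) ^
      (m e + if e.1.1 = c ∨ e.1.2 = c then μ (h e.1.1) (h e.1.2) else 0) =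
      (∏ e : Ed f, (s (h e.1.1) - s (h e.1.2)) ^
        (if e.1.1 = c ∨ e.1.2 = c then μ (h e.1.1) (h e.1.2) else 0)) *
        ∏ e : Ed f, (s (h e.1.1) - s (h e.1.2)) ^ m e := by
    rw [← prod_mul_distrib]
    refine prod_congr rfl fun e _ => ?_
    rw [pow_add, mul_comm]
  have h24 : ∑ i ∈ Z, Q i / D i * g.eval (s i) = g.eval (s (h c)) := h19
  rw [h24, h20, h21, h22]
  push_cast
  ring

theorem degM_erase {n f : ℕ} {μ : Fin n → Fin n → ℕ} {Z : Finset (Fin n)} {h : Fin f → Fin n}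
    (hinj : Function.Injective h)
    (hZ : ∀ c, h c ∉ Z) (c : Fin f) {u : Fin n} (hu : u ∈ Z) (v : Fin n) :
    degM μ Z h v = degM μ (Z.erase u) (Function.update h c u) v + μ v (h c) := by
  classical
  unfold degM
  have h1 : (univ.filter (fun w => Cur (Z.erase u) (Function.update h c u) w) : Finset (Fin n)) =
      (univ.filter (fun w => Cur Z h w)).erase (h c) := by
    ext w
    rw [mem_filter, mem_erase, mem_filter, cur_step hinj hZ c hu]
    tauto
  have h2 : ∑ w ∈ (univ.filter (fun w => Cur Z h w)).erase (h c), μ v w + μ v (h c) =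
      ∑ w ∈ univ.filter (fun w => Cur Z h w), μ v w := by
    rw [add_comm]
    exact Finset.add_sum_erase _ _ (by rw [mem_filter]; exact ⟨mem_univ _, Or.inr ⟨c, rfl⟩⟩)
  rw [← h1] at h2
  have h3 : ∀ (inst : DecidablePred fun w => Cur Z h w),
      @Finset.filter _ (fun w => Cur Z h w) inst univ = univ.filter (fun w => Cur Z h w) := by
    intro inst
    ext w
    constructor <;> intro hw <;> rw [mem_filter_any] at hw ⊢ <;> exact hw
  have h4 : ∀ (inst : DecidablePred fun w => Cur (Z.erase u) (Function.update h c u) w),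
      @Finset.filter _ (fun w => Cur (Z.erase u) (Function.update h c u) w) inst univ =
      univ.filter (fun w => Cur (Z.erase u) (Function.update h c u) w) := by
    intro inst
    ext w
    constructor <;> intro hw <;> rw [mem_filter_any] at hw ⊢ <;> exact hw
  rw [h3, h4, h2]

theorem con_forcesM (h2 : S_VSWAP) (h3 : S_LAG) (h4 : S_DEGM) {n f : ℕ}
    (μ : Fin n → Fin n → ℕ) (hμ : ∀ a b, μ a b = μ b a) (hd : ∀ a, μ a a = 0)
    (Z : Finset (Fin n)) (h : Fin f → Fin n) (m : Ed f → ℕ)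
    (hF : ForcesM μ Z h m) : Function.Injective h → (∀ c, h c ∉ Z) →
    (∀ v ∈ Z, degM μ Z h v = Z.card - 1) → ConM μ Z h m := by
  classical
  induction hF with
  | done h =>
    intro hinj _ _
    exact con_doneM μ hμ h hinj
  | step Z h c u m hu h0 h1 hm ih =>
    intro hinj hZ hcod
    have hi := inj_step hinj hZ c hu
    have hn := fun c' => notMem_step hZ c (u := u) c'
    have hc : ∀ v ∈ Z.erase u, degM μ (Z.erase u) (Function.update h c u) v =
        (Z.erase u).card - 1 := by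
      intro v hv
      have h5 := degM_erase (μ := μ) hinj hZ c hu v
      rw [hcod v (mem_of_mem_erase hv), hμ v (h c), h1 v (mem_of_mem_erase hv)
        (mem_erase.1 hv).1] at h5
      rw [card_erase_of_mem hu]
      omega
    have ih' := ih hi hn hc
    refine con_stepM h2 h3 μ hμ Z h hinj hZ c u m hu h0 h1 ?_ ih'
    intro E hE
    have h5 := h4 (Fin n) f μ (Z.erase u) (Function.update h c u) m hμ hd hi hn hc hm c
    have h5' := degM_erase (μ := μ) hinj hZ c hu u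
    rw [hcod u hu, hμ u (h c), h0, add_zero] at h5'
    rw [Function.update_self, ← h5'] at h5
    have h6 : ∃ E' : Finset (Ed f), (∀ e, e ∈ E' ↔ (e.1.1 = c ∨ e.1.2 = c)) ∧
        ∑ e ∈ E', m e = Z.card - 1 :=
      ⟨_, fun e => by rw [mem_filter_any]; simp, h5⟩
    obtain ⟨E', hE', h7⟩ := h6
    have h8 : E = E' := by
      ext e
      rw [hE, hE']
    rw [h8, h7]
    have h9 := card_pos.2 ⟨u, hu⟩
    omega

/-- ZM2 -/
theorem main (h2 : S_VSWAP) (h3 : S_LAG) (h4 : S_DEGM) : S_IDBM := by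
  classical
  intro n f μ Z h m hμ hd hinj hZ hcod hF
  have h5 := con_forcesM h2 h3 h4 μ hμ hd Z h m hF hinj hZ hcod
  obtain ⟨ε, hε, h6⟩ := h5 (univ.filter fun σ => ∀ v, v ∉ Z → σ v = v)
    (fun σ => by simp only [mem_filter, mem_univ, true_and])
  refine ⟨ε, hε, fun K _ s hs => ?_⟩
  have h7 : PM (fun a b => if a ∈ Z ∧ b ∈ Z then 1 else 0) s =
      PR (fun a b => a ∈ Z ∧ b ∈ Z) s :=
    PM_PR (fun a b => ⟨fun hh => if_pos hh, fun hh => if_neg hh⟩) s
  have h8 : ∀ ν : Fin n → Fin n → ℕ, (∀ a b, (a ∈ Z ∧ b ∈ Z → ν a b = 1) ∧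
      (¬ (a ∈ Z ∧ b ∈ Z) → ν a b = 0)) → PM ν s = PR (fun a b => a ∈ Z ∧ b ∈ Z) s :=
    fun ν hν => PM_PR hν s
  rw [h8 _ (fun a b => ⟨fun hh => if_pos hh, fun hh => if_neg hh⟩), ← h6 K s hs]
  refine sum_congr ?_ fun _ _ => ?_
  · ext σ
    constructor <;> intro hw <;> rw [mem_filter_any] at hw ⊢ <;> exact hw
  · congr 1

end Pool.Agent.Y445.ZM
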